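import Mathlib

/-!
# Signed Johnson and Kneser graphs with different chromatic numbers

For `k = 2` and `t = -1` the chromatic numbers of `J_±(n, k, t)` and `K_±(n, k, t)` differ for
infinitely many `n`.
-/

set_option autoImplicit false

namespace Pool.Agent.Results.MP_6c9e22_co.CentralBinomial

open Finset

section Abstract

variable {n N : ℕ} (χ : Fin n → Fin n → Bool → Bool → Fin N)

/-- Colour `r` is used on a vector with sign `a` at the coordinate `i`. -/
def P (i : Fin n) (r : Fin N) (a : Bool) : Prop := ∃ j, j ≠ i ∧ ∃ b, χ i j a b = r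

open Classical in
/-- The colours in which `i` occurs with both signs. -/
noncomputable def SS (i : Fin n) : Finset (Fin N) :=
  Finset.univ.filter (fun r => P χ i r true ∧ P χ i r false)

open Classical in
/-- The colours in which `i` occurs (if at all) with the single sign `a`. -/
noncomputable def X (i : Fin n) (a : Bool) : Finset (Fin N) :=
  Finset.univ.filter (fun r => (a = true ∧ ¬ P χ i r false) ∨
    (a = false ∧ P χ i r false ∧ ¬ P χ i r true))

variable {χ}

theorem mem_SS {i : Fin n} {r : Fin N} : r ∈ SS χ i ↔ P χ i r true ∧ P χ i r false := by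
  simp [SS]

theorem mem_X_true {i : Fin n} {r : Fin N} : r ∈ X χ i true ↔ ¬ P χ i r false := by
  simp [X]

theorem mem_X_false {i : Fin n} {r : Fin N} :
    r ∈ X χ i false ↔ P χ i r false ∧ ¬ P χ i r true := by
  simp [X]

theorem mem_X_of {i : Fin n} {r : Fin N} {a : Bool} (h1 : P χ i r a) (h2 : r ∉ SS χ i) :
    r ∈ X χ i a := by
  rw [mem_SS] at h2
  cases a
  · rw [mem_X_false]
    exact ⟨h1, fun h => h2 ⟨h, h1⟩⟩
  · rw [mem_X_true]
    exact fun h => h2 ⟨h1, h⟩

theorem X_cover {i : Fin n} {r : Fin N} (h : r ∉ SS χ i) : r ∈ X χ i true ∨ r ∈ X χ i false := by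
  rw [mem_SS] at h
  rw [mem_X_true, mem_X_false]
  tauto

theorem X_disj {i : Fin n} {r : Fin N} (h : r ∈ X χ i true) : r ∉ X χ i false := by
  rw [mem_X_true] at h
  rw [mem_X_false]
  tauto

theorem X_not_SS {i : Fin n} {r : Fin N} {a : Bool} (h : r ∈ X χ i a) : r ∉ SS χ i := by
  rw [mem_SS]
  cases a
  · rw [mem_X_false] at h
    tauto
  · rw [mem_X_true] at h
    tauto

variable (hsym : ∀ i j a b, i ≠ j → χ i j a b = χ j i b a)
  (hprop : ∀ i j k a b d, i ≠ j → i ≠ k → (j ≠ k ∨ b ≠ d) → χ i j a b ≠ χ i k (!a) d)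

include hprop in
theorem exists_partner {i : Fin n} {r : Fin N} (h : r ∈ SS χ i) :
    ∃ jx : Fin n × Bool, jx.1 ≠ i ∧ (∀ a, χ i jx.1 a jx.2 = r) ∧
      ∀ k a b, k ≠ i → χ i k a b = r → k = jx.1 ∧ b = jx.2 := by
  rw [mem_SS] at h
  obtain ⟨⟨j, hj, b, hb⟩, ⟨k, hk, d, hd⟩⟩ := h
  have h1 : j = k ∧ b = d := by
    by_contra hcon
    refine hprop i j k true b d hj.symm hk.symm ?_ (hb.trans hd.symm)
    tauto
  obtain ⟨rfl, rfl⟩ := h1
  refine ⟨(j, b), hj, ?_, ?_⟩
  · intro a
    cases a
    · exact hd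
    · exact hb
  · intro k a b' hk' h
    cases a
    · by_contra hcon
      refine hprop i j k true b b' hj.symm hk'.symm ?_ (hb.trans h.symm)
      simp only at hcon
      tauto
    · by_contra hcon
      refine hprop i k j true b' b hk'.symm hj.symm ?_ (h.trans hd.symm)
      simp only at hcon
      tauto

open Classical in
/-- The partner of `i` in colour `r`, and its sign. -/
noncomputable def pr (χ : Fin n → Fin n → Bool → Bool → Fin N) (i : Fin n) (r : Fin N) :
    Fin n × Bool :=
  if h : ∃ jx : Fin n × Bool, jx.1 ≠ i ∧ (∀ a, χ i jx.1 a jx.2 = r) ∧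
      ∀ k a b, k ≠ i → χ i k a b = r → k = jx.1 ∧ b = jx.2 then h.choose else (i, true)

include hprop in
theorem pr_spec {i : Fin n} {r : Fin N} (h : r ∈ SS χ i) :
    (pr χ i r).1 ≠ i ∧ (∀ a, χ i (pr χ i r).1 a (pr χ i r).2 = r) ∧
      ∀ k a b, k ≠ i → χ i k a b = r → k = (pr χ i r).1 ∧ b = (pr χ i r).2 := by
  have h' := exists_partner hprop h
  rw [pr, dif_pos h']
  exact h'.choose_spec

include hsym hprop in
theorem partner_pure {i : Fin n} {r : Fin N} (h : r ∈ SS χ i) :
    r ∈ X χ (pr χ i r).1 (pr χ i r).2 := by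
  obtain ⟨h1, h2, h3⟩ := pr_spec hprop h
  have e1 : χ (pr χ i r).1 i (pr χ i r).2 true = r := by
    rw [← hsym _ _ _ _ h1.symm]; exact h2 true
  have e2 : χ (pr χ i r).1 i (pr χ i r).2 false = r := by
    rw [← hsym _ _ _ _ h1.symm]; exact h2 false
  apply mem_X_of
  · exact ⟨i, h1.symm, true, e1⟩
  · intro hS
    obtain ⟨g1, g2, g3⟩ := pr_spec hprop hS
    have f1 := (g3 i _ _ h1.symm e1).2
    have f2 := (g3 i _ _ h1.symm e2).2
    exact absurd (f1.trans f2.symm) (by simp)

/-- The arc relation `i → j`: in some colour `i` is a leaf attached to `j`. -/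
def Arc (χ : Fin n → Fin n → Bool → Bool → Fin N) (i j : Fin n) : Prop :=
  ∃ r ∈ SS χ i, (pr χ i r).1 = j

include hsym hprop in
theorem cover {i j : Fin n} (hij : i ≠ j) (a b : Bool) :
    (χ i j a b ∈ X χ i a ∧ χ i j a b ∈ X χ j b) ∨
    (χ i j a b ∈ SS χ i ∧ pr χ i (χ i j a b) = (j, b) ∧ χ i j a b ∈ X χ j b) ∨
    (χ i j a b ∈ SS χ j ∧ pr χ j (χ i j a b) = (i, a) ∧ χ i j a b ∈ X χ i a) := by
  have p1 : P χ i (χ i j a b) a := ⟨j, hij.symm, b, rfl⟩
  have p2 : P χ j (χ i j a b) b := ⟨i, hij, a, (hsym i j a b hij).symm⟩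
  by_cases h1 : χ i j a b ∈ SS χ i
  · right; left
    obtain ⟨g1, g2, g3⟩ := pr_spec hprop h1
    have g := g3 j a b hij.symm rfl
    have hpr : pr χ i (χ i j a b) = (j, b) := Prod.ext g.1.symm g.2.symm
    refine ⟨h1, hpr, ?_⟩
    have := partner_pure hsym hprop h1
    rwa [hpr] at this
  · by_cases h2 : χ i j a b ∈ SS χ j
    · right; right
      obtain ⟨g1, g2, g3⟩ := pr_spec hprop h2
      have g := g3 i b a hij (hsym i j a b hij).symm
      have hpr : pr χ j (χ i j a b) = (i, a) := Prod.ext g.1.symm g.2.symm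
      refine ⟨h2, hpr, ?_⟩
      have := partner_pure hsym hprop h2
      rwa [hpr] at this
    · left
      exact ⟨mem_X_of p1 h1, mem_X_of p2 h2⟩

include hsym hprop in
theorem cover_of_not_arc {i j : Fin n} (hij : i ≠ j) (h1 : ¬ Arc χ i j) (h2 : ¬ Arc χ j i)
    (a b : Bool) : ∃ r, r ∈ X χ i a ∧ r ∈ X χ j b := by
  rcases cover hsym hprop hij a b with h | h | h
  · exact ⟨_, h⟩
  · exact absurd ⟨_, h.1, by rw [h.2.1]⟩ h1
  · exact absurd ⟨_, h.1, by rw [h.2.1]⟩ h2

/-- A set of coordinates that are pairwise related by arcs is small. -/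
theorem card_related (M : Finset (Fin n))
    (hM : ∀ i ∈ M, ∀ j ∈ M, i ≠ j → Arc χ i j ∨ Arc χ j i) : M.card ≤ 2 * N + 1 := by
  classical
  rcases M.eq_empty_or_nonempty with rfl | hne
  · simp
  let F : Finset (Fin n × Fin n) := M.biUnion (fun i => (SS χ i).image (fun r => (i, (pr χ i r).1)))
  have hF : F.card ≤ M.card * N := by
    refine Finset.card_biUnion_le.trans ((Finset.sum_le_card_nsmul _ _ N ?_).trans ?_)
    · intro i _
      refine Finset.card_image_le.trans ((Finset.card_le_univ _).trans ?_)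
      simp
    · rw [smul_eq_mul]
  have hsub : M.offDiag ⊆ F ∪ F.image Prod.swap := by
    rintro ⟨i, j⟩ hij
    rw [Finset.mem_offDiag] at hij
    simp only at hij
    rw [Finset.mem_union]
    rcases hM i hij.1 j hij.2.1 hij.2.2 with ⟨r, hr, h⟩ | ⟨r, hr, h⟩
    · left
      rw [Finset.mem_biUnion]
      exact ⟨i, hij.1, Finset.mem_image.2 ⟨r, hr, by rw [h]⟩⟩
    · right
      rw [Finset.mem_image]
      refine ⟨(j, i), ?_, rfl⟩
      rw [Finset.mem_biUnion]
      exact ⟨j, hij.2.1, Finset.mem_image.2 ⟨r, hr, by rw [h]⟩⟩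
  have h1 := Finset.card_le_card hsub
  have h2 := Finset.card_union_le F (F.image Prod.swap)
  have h3 : (F.image Prod.swap).card ≤ F.card := Finset.card_image_le
  rw [Finset.offDiag_card] at h1
  have hpos : 0 < M.card := Finset.card_pos.2 hne
  have h4 : M.card * M.card ≤ M.card * (2 * N + 1) := by
    have : M.card * M.card ≤ 2 * (M.card * N) + M.card := by omega
    calc _ ≤ _ := this
      _ = _ := by ring
  exact Nat.le_of_mul_le_mul_left h4 hpos

theorem SS_card (i : Fin n) : (X χ i false)ᶜ.card = (X χ i true).card + (SS χ i).card := by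
  classical
  rw [← Finset.card_union_of_disjoint]
  · congr 1
    ext r
    rw [Finset.mem_compl, Finset.mem_union]
    constructor
    · intro h
      by_cases hr : r ∈ SS χ i
      · exact Or.inr hr
      · exact Or.inl ((X_cover hr).resolve_right h)
    · rintro (h | h)
      · exact X_disj h
      · exact fun h' => X_not_SS h' h
  · rw [Finset.disjoint_left]
    exact fun r h => X_not_SS h

include hsym hprop in
theorem sum_two_pow (T : Finset (Fin n)) :
    ∑ i ∈ T, 2 ^ (SS χ i).card ≤ (2 * N + 1) * 2 ^ N := by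
  classical
  have h1 : ∀ i, 2 ^ (SS χ i).card =
      (Finset.univ.filter (fun Y : Finset (Fin N) => X χ i true ⊆ Y ∧ Y ⊆ (X χ i false)ᶜ)).card := by
    intro i
    have hsub : X χ i true ⊆ (X χ i false)ᶜ := fun r h => Finset.mem_compl.2 (X_disj h)
    have : Finset.univ.filter (fun Y : Finset (Fin N) => X χ i true ⊆ Y ∧ Y ⊆ (X χ i false)ᶜ) =
        Finset.Icc (X χ i true) ((X χ i false)ᶜ) := by
      ext Y
      simp
    rw [this, Finset.card_Icc_finset hsub, SS_card, Nat.add_sub_cancel_left]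
  calc ∑ i ∈ T, 2 ^ (SS χ i).card
      = ∑ i ∈ T, ∑ Y : Finset (Fin N),
          (if X χ i true ⊆ Y ∧ Y ⊆ (X χ i false)ᶜ then 1 else 0) := by
        refine Finset.sum_congr rfl fun i _ => ?_
        rw [h1, Finset.card_filter]
    _ = ∑ Y : Finset (Fin N), (T.filter (fun i => X χ i true ⊆ Y ∧ Y ⊆ (X χ i false)ᶜ)).card := by
        rw [Finset.sum_comm]
        refine Finset.sum_congr rfl fun Y _ => ?_
        rw [Finset.card_filter]
    _ ≤ ∑ _Y : Finset (Fin N), (2 * N + 1) := by
        refine Finset.sum_le_sum fun Y _ => card_related (χ := χ) _ ?_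
        intro i hi j hj hij
        by_contra hcon
        push Not at hcon
        obtain ⟨r, h1, h2⟩ := cover_of_not_arc hsym hprop hij hcon.1 hcon.2 true false
        have h3 := (Finset.mem_filter.1 hi).2.1 h1
        have h4 := (Finset.mem_filter.1 hj).2.2 h3
        exact (Finset.mem_compl.1 h4) h2
    _ = _ := by
        rw [Finset.sum_const, smul_eq_mul, Finset.card_univ, Fintype.card_finset, Fintype.card_fin]
        ring

include hsym hprop in
theorem card_small (a : Bool) (ℓ : ℕ) :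
    (Finset.univ.filter (fun i => (X χ i a).card < ℓ)).card ≤
      (2 * N + 1) * (Finset.univ.filter (fun Y : Finset (Fin N) => Y.card < ℓ)).card := by
  classical
  have h := Finset.card_le_mul_card_image_of_maps_to
    (s := Finset.univ.filter (fun i => (X χ i a).card < ℓ))
    (t := Finset.univ.filter (fun Y : Finset (Fin N) => Y.card < ℓ))
    (f := fun i => X χ i a) (by
      intro i hi
      rw [Finset.mem_filter] at hi ⊢
      exact ⟨Finset.mem_univ _, hi.2⟩) (2 * N + 1) (by
      intro Y _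
      apply card_related (χ := χ)
      intro i hi j hj hij
      rw [Finset.mem_filter] at hi hj
      by_contra hcon
      push Not at hcon
      have hX : X χ i a = X χ j a := hi.2.trans hj.2.symm
      cases a
      · obtain ⟨r, h1, h2⟩ := cover_of_not_arc hsym hprop hij hcon.1 hcon.2 false true
        rw [hX] at h1
        exact X_disj h2 h1
      · obtain ⟨r, h1, h2⟩ := cover_of_not_arc hsym hprop hij hcon.1 hcon.2 true false
        rw [hX] at h1
        exact X_disj h1 h2)
  exact h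

open Classical in
/-- The filled sets. -/
noncomputable def X' (χ : Fin n → Fin n → Bool → Bool → Fin N) (i : Fin n) (a : Bool) :
    Finset (Fin N) :=
  X χ i a ∪ (SS χ i).filter (fun r =>
    if Disjoint (X χ i true) (X χ (pr χ i r).1 (pr χ i r).2) then a = true else a = false)

theorem X'_disj {i : Fin n} {r : Fin N} (h : r ∈ X' χ i true) : r ∉ X' χ i false := by
  intro h'
  rw [X', Finset.mem_union, Finset.mem_filter] at h h'
  rcases h with h | h
  · rcases h' with h' | h'
    · exact X_disj h h'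
    · exact X_not_SS h h'.1
  · rcases h' with h' | h'
    · exact X_not_SS h' h.1
    · by_cases hd : Disjoint (X χ i true) (X χ (pr χ i r).1 (pr χ i r).2)
      · simp only [if_pos hd] at h'
        exact absurd h'.2 (by simp)
      · simp only [if_neg hd] at h
        exact absurd h.2 (by simp)

theorem fill {i : Fin n} {r : Fin N} {ℓ : ℕ} (h : r ∈ SS χ i) (hi : (SS χ i).card < ℓ)
    (hj : ℓ ≤ (X χ (pr χ i r).1 (pr χ i r).2).card) (hr : r ∈ X χ (pr χ i r).1 (pr χ i r).2)
    (a : Bool) : ∃ s, s ∈ X' χ i a ∧ s ∈ X χ (pr χ i r).1 (pr χ i r).2 := by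
  classical
  by_cases hd : Disjoint (X χ i true) (X χ (pr χ i r).1 (pr χ i r).2)
  · cases a
    · have hns : ¬ X χ (pr χ i r).1 (pr χ i r).2 ⊆ SS χ i := by
        intro hsub
        have := Finset.card_le_card hsub
        omega
      rw [Finset.not_subset] at hns
      obtain ⟨s, hs, hs'⟩ := hns
      refine ⟨s, ?_, hs⟩
      rw [X', Finset.mem_union]
      left
      rcases X_cover hs' with h' | h'
      · exact absurd hs (Finset.disjoint_left.1 hd h')
      · exact h'
    · refine ⟨r, ?_, hr⟩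
      rw [X', Finset.mem_union, Finset.mem_filter, if_pos hd]
      exact Or.inr ⟨h, rfl⟩
  · cases a
    · refine ⟨r, ?_, hr⟩
      rw [X', Finset.mem_union, Finset.mem_filter, if_neg hd]
      exact Or.inr ⟨h, rfl⟩
    · rw [Finset.not_disjoint_iff] at hd
      obtain ⟨s, hs, hs'⟩ := hd
      exact ⟨s, Finset.mem_union_left _ hs, hs'⟩

include hsym hprop in
theorem cover' {i j : Fin n} {ℓ : ℕ} (hij : i ≠ j) (hi : (SS χ i).card < ℓ)
    (hj : (SS χ j).card < ℓ) (hi' : ∀ a, ℓ ≤ (X χ i a).card) (hj' : ∀ a, ℓ ≤ (X χ j a).card)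
    (a b : Bool) : ∃ r, r ∈ X' χ i a ∧ r ∈ X' χ j b := by
  rcases cover hsym hprop hij a b with h | h | h
  · exact ⟨_, Finset.mem_union_left _ h.1, Finset.mem_union_left _ h.2⟩
  · obtain ⟨h1, h2, h3⟩ := h
    have h4 := fill (a := a) h1 hi (by rw [h2]; exact hj' b) (by rw [h2]; exact h3)
    rw [h2] at h4
    obtain ⟨s, hs, hs'⟩ := h4
    exact ⟨s, hs, Finset.mem_union_left _ hs'⟩
  · obtain ⟨h1, h2, h3⟩ := h
    have h4 := fill (a := b) h1 hj (by rw [h2]; exact hi' a) (by rw [h2]; exact h3)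
    rw [h2] at h4
    obtain ⟨s, hs, hs'⟩ := h4
    exact ⟨s, Finset.mem_union_left _ hs', hs⟩

include hsym hprop in
theorem card_rest {ℓ : ℕ} (hℓ : 1 ≤ ℓ) (R : Finset (Fin n)) (hR : ∀ i ∈ R, (SS χ i).card < ℓ)
    (hR' : ∀ i ∈ R, ∀ a, ℓ ≤ (X χ i a).card) : 2 * R.card ≤ N.choose (N / 2) := by
  classical
  let f : Fin n × Bool → Finset (Fin N) := fun p => X' χ p.1 p.2
  have hkey : ∀ p ∈ R ×ˢ (Finset.univ : Finset Bool), ∀ q ∈ R ×ˢ (Finset.univ : Finset Bool),
      f p ⊆ f q → p = q := by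
    rintro ⟨i, a⟩ hp ⟨j, b⟩ hq hsub
    rw [Finset.mem_product] at hp hq
    by_cases hij : i = j
    · subst hij
      by_cases hab : a = b
      · rw [hab]
      · exfalso
        obtain ⟨r, hr⟩ : (X χ i a).Nonempty := by
          rw [← Finset.card_pos]
          have := hR' i hp.1 a
          omega
        have h1 : r ∈ X' χ i a := Finset.mem_union_left _ hr
        have h2 : r ∈ X' χ i b := hsub h1
        cases a <;> cases b
        · exact hab rfl
        · exact X'_disj h2 h1
        · exact X'_disj h1 h2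
        · exact hab rfl
    · exfalso
      obtain ⟨r, h1, h2⟩ := cover' hsym hprop hij (hR i hp.1) (hR j hq.1) (hR' i hp.1) (hR' j hq.1)
        a (!b)
      have h3 : r ∈ X' χ j b := hsub h1
      cases b
      · exact X'_disj h2 h3
      · exact X'_disj h3 h2
  have hinj : Set.InjOn f (R ×ˢ (Finset.univ : Finset Bool) : Finset _) := by
    intro p hp q hq h
    exact hkey p hp q hq (by rw [h])
  have hanti : IsAntichain (· ⊆ ·)
      (SetLike.coe ((R ×ˢ (Finset.univ : Finset Bool)).image f)) := by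
    intro Y hY Z hZ hne hsub
    rw [SetLike.mem_coe, Finset.mem_image] at hY hZ
    obtain ⟨p, hp, rfl⟩ := hY
    obtain ⟨q, hq, rfl⟩ := hZ
    exact hne (by rw [hkey p hp q hq hsub])
  have h := hanti.sperner
  rw [Fintype.card_fin] at h
  have hc : ((R ×ˢ (Finset.univ : Finset Bool)).image f).card = R.card * 2 := by
    rw [Finset.card_image_of_injOn hinj, Finset.card_product]
    simp
  have h' : ((R ×ˢ (Finset.univ : Finset Bool)).image f).card ≤ N.choose (N / 2) := h
  omega

include hsym hprop in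
theorem main_bound {ℓ : ℕ} (hℓ : 1 ≤ ℓ) : ∃ T Sm R : ℕ, n ≤ T + Sm + R ∧
    T * 2 ^ ℓ ≤ (2 * N + 1) * 2 ^ N ∧
    Sm ≤ 2 * ((2 * N + 1) * (Finset.univ.filter (fun Y : Finset (Fin N) => Y.card < ℓ)).card) ∧
    2 * R ≤ N.choose (N / 2) := by
  classical
  let T : Finset (Fin n) := Finset.univ.filter (fun i => ℓ ≤ (SS χ i).card)
  let S₁ : Finset (Fin n) := Finset.univ.filter (fun i => (X χ i true).card < ℓ)
  let S₂ : Finset (Fin n) := Finset.univ.filter (fun i => (X χ i false).card < ℓ)
  let R : Finset (Fin n) := Finset.univ.filter (fun i => (SS χ i).card < ℓ ∧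
    ℓ ≤ (X χ i true).card ∧ ℓ ≤ (X χ i false).card)
  refine ⟨T.card, S₁.card + S₂.card, R.card, ?_, ?_, ?_, ?_⟩
  · have hsub : (Finset.univ : Finset (Fin n)) ⊆ (T ∪ (S₁ ∪ S₂)) ∪ R := by
      intro i _
      simp only [T, S₁, S₂, R, Finset.mem_union, Finset.mem_filter, Finset.mem_univ, true_and]
      omega
    have h1 := Finset.card_le_card hsub
    have h2 := Finset.card_union_le (T ∪ (S₁ ∪ S₂)) R
    have h3 := Finset.card_union_le T (S₁ ∪ S₂)
    have h4 := Finset.card_union_le S₁ S₂
    rw [Finset.card_univ, Fintype.card_fin] at h1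
    omega
  · refine le_trans ?_ (sum_two_pow hsym hprop T)
    rw [← smul_eq_mul, ← Finset.sum_const]
    refine Finset.sum_le_sum fun i hi => ?_
    exact Nat.pow_le_pow_right (by norm_num) (Finset.mem_filter.1 hi).2
  · have h1 := card_small hsym hprop true ℓ
    have h2 := card_small hsym hprop false ℓ
    have h1' : S₁.card ≤ _ := h1
    have h2' : S₂.card ≤ _ := h2
    omega
  · refine card_rest hsym hprop hℓ R (fun i hi => (Finset.mem_filter.1 hi).2.1) (fun i hi a => ?_)
    cases a
    · exact (Finset.mem_filter.1 hi).2.2.2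
    · exact (Finset.mem_filter.1 hi).2.2.1

end Abstract

section Numeric

theorem card_lt_le (N ℓ : ℕ) (hN : 1 ≤ N) :
    (Finset.univ.filter (fun Y : Finset (Fin N) => Y.card < ℓ)).card ≤ ℓ * N ^ ℓ := by
  classical
  have hsub : Finset.univ.filter (fun Y : Finset (Fin N) => Y.card < ℓ) ⊆
      (Finset.range ℓ).biUnion (fun r => Finset.powersetCard r (Finset.univ : Finset (Fin N))) := by
    intro Y hY
    rw [Finset.mem_biUnion]
    exact ⟨Y.card, Finset.mem_range.2 (Finset.mem_filter.1 hY).2,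
      Finset.mem_powersetCard.2 ⟨Finset.subset_univ _, rfl⟩⟩
  refine (Finset.card_le_card hsub).trans (Finset.card_biUnion_le.trans ?_)
  refine (Finset.sum_le_card_nsmul _ _ (N ^ ℓ) ?_).trans ?_
  · intro r hr
    rw [Finset.card_powersetCard, Finset.card_univ, Fintype.card_fin]
    refine (Nat.choose_le_pow _ _).trans ?_
    exact Nat.pow_le_pow_right hN (Finset.mem_range.1 hr).le
  · rw [Finset.card_range, smul_eq_mul]

theorem exp_bound (k : ℕ) (hk : 9 ≤ k) : 3 * k ^ 2 + 19 * k + 25 ≤ 2 ^ (k + 1) := by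
  induction k, hk using Nat.le_induction with
  | base => norm_num
  | succ k hk ih =>
    have h : 2 ^ (k + 1 + 1) = 2 * 2 ^ (k + 1) := by ring
    rw [h]
    nlinarith

theorem lin_bound (k : ℕ) (hk : 9 ≤ k) : 3 * k + 9 ≤ 2 ^ k := by
  induction k, hk using Nat.le_induction with
  | base => norm_num
  | succ k hk ih =>
    have h : 2 ^ (k + 1) = 2 * 2 ^ k := by ring
    rw [h]
    omega

theorem numeric (k T Sm R n : ℕ) (hk : 9 ≤ k) (hn : n = (2 ^ k).centralBinom)
    (h1 : n ≤ T + Sm + R)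
    (h2 : T * 2 ^ (3 * k + 9) ≤ (2 * (2 * 2 ^ k + 1) + 1) * 2 ^ (2 * 2 ^ k + 1))
    (h3 : Sm ≤ 2 * ((2 * (2 * 2 ^ k + 1) + 1) *
      ((3 * k + 9) * (2 * 2 ^ k + 1) ^ (3 * k + 9))))
    (h4 : 2 * R ≤ (2 * 2 ^ k + 1).choose ((2 * 2 ^ k + 1) / 2)) : False := by
  have hhalf : (2 * 2 ^ k + 1) / 2 = 2 ^ k := by omega
  rw [hhalf] at h4
  have e1 : (2 * 2 ^ k + 1) * (2 ^ k).centralBinom = (2 * 2 ^ k + 1).choose (2 ^ k) * (2 ^ k + 1) := by
    rw [Nat.centralBinom, Nat.add_one_mul_choose_eq, Nat.choose_symm_half]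
  have hk1 : 2 ^ k ≥ 512 := by
    calc 2 ^ k ≥ 2 ^ 9 := Nat.pow_le_pow_right (by norm_num) hk
      _ = 512 := by norm_num
  have e2 : 4 ^ (2 ^ k) < 2 ^ k * (2 ^ k).centralBinom :=
    Nat.four_pow_lt_mul_centralBinom _ (by omega)
  rw [← hn] at e1 e2
  -- C ≤ 2 (h + 1) (T + Sm)
  have e3 : n ≤ 2 * (2 ^ k + 1) * (T + Sm) := by
    have : (2 ^ k + 1) * (2 * n) ≤ (2 ^ k + 1) * (2 * (T + Sm)) + (2 * 2 ^ k + 1) * n := by
      calc (2 ^ k + 1) * (2 * n) ≤ (2 ^ k + 1) * (2 * (T + Sm) + 2 * R) :=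
            Nat.mul_le_mul_left _ (by omega)
        _ = (2 ^ k + 1) * (2 * (T + Sm)) + (2 ^ k + 1) * (2 * R) := by ring
        _ ≤ (2 ^ k + 1) * (2 * (T + Sm)) + (2 ^ k + 1) * (2 * 2 ^ k + 1).choose (2 ^ k) := by
            gcongr
        _ = _ := by rw [e1]; ring
    nlinarith
  set h := 2 ^ k with hh
  have e4 : 4 ^ h < 4 * h ^ 2 * (T + Sm) := by
    have hle : 2 * (h + 1) ≤ 4 * h := by omega
    calc 4 ^ h < h * n := e2
      _ ≤ h * (2 * (h + 1) * (T + Sm)) := Nat.mul_le_mul_left _ e3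
      _ ≤ h * (4 * h * (T + Sm)) := Nat.mul_le_mul_left _ (Nat.mul_le_mul_right _ hle)
      _ = _ := by ring
  have e5 : 8 * (4 * h ^ 2 * T) ≤ 4 ^ h := by
    have f1 : T * 2 ^ (3 * k + 9) ≤ (8 * h) * (2 * 4 ^ h) := by
      refine h2.trans ?_
      have g1 : 2 * (2 * h + 1) + 1 ≤ 8 * h := by omega
      have g2 : 2 ^ (2 * h + 1) = 2 * 4 ^ h := by
        rw [pow_succ, pow_mul]
        norm_num
        ring
      rw [g2]
      exact Nat.mul_le_mul_right _ g1
    have f2 : 2 ^ (3 * k + 9) = 512 * h ^ 3 := by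
      rw [hh, ← pow_mul, pow_add, mul_comm k 3]
      norm_num
      ring
    rw [f2] at f1
    have f3 : h * (8 * (4 * h ^ 2 * T)) ≤ h * 4 ^ h := by nlinarith
    exact Nat.le_of_mul_le_mul_left f3 (by omega)
  have e6 : 2 * (4 * h ^ 2 * Sm) ≤ 4 ^ h := by
    have g1 : 2 * (2 * h + 1) + 1 ≤ 8 * h := by omega
    have g2 : 2 * h + 1 ≤ 4 * h := by omega
    have g3 : 3 * k + 9 ≤ h := lin_bound k hk
    have f1 : Sm ≤ 2 * ((8 * h) * (h * (4 * h) ^ (3 * k + 9))) := by
      refine h3.trans ?_
      gcongr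
    have f2 : 2 * (4 * h ^ 2 * Sm) ≤ 2 * (4 * h ^ 2 * (2 * ((8 * h) * (h * (4 * h) ^ (3 * k + 9))))) := by
      gcongr
    have f3 : 2 * (4 * h ^ 2 * (2 * ((8 * h) * (h * (4 * h) ^ (3 * k + 9))))) =
        2 ^ (3 * k ^ 2 + 19 * k + 25) := by
      have g4 : 4 * h = 2 ^ (k + 2) := by rw [hh, pow_add]; ring
      have g4' : (4 * h) ^ (3 * k + 9) = 2 ^ ((k + 2) * (3 * k + 9)) := by rw [g4, ← pow_mul]
      rw [g4']
      have g5 : 2 * (4 * h ^ 2 * (2 * ((8 * h) * (h * 2 ^ ((k + 2) * (3 * k + 9)))))) =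
          2 ^ 7 * h ^ 4 * 2 ^ ((k + 2) * (3 * k + 9)) := by ring
      rw [g5, hh, ← pow_mul, ← pow_add, ← pow_add]
      congr 1
      ring
    rw [f3] at f2
    refine f2.trans ?_
    have g6 : 4 ^ h = 2 ^ (2 * h) := by
      rw [pow_mul]
      norm_num
    rw [g6]
    apply Nat.pow_le_pow_right (by norm_num)
    have := exp_bound k hk
    have g7 : 2 ^ (k + 1) = 2 * h := by rw [hh]; ring
    omega
  have e7 : 4 * h ^ 2 * (T + Sm) = 4 * h ^ 2 * T + 4 * h ^ 2 * Sm := by ring
  rw [e7] at e4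
  omega

end Numeric

section Graphs

/-- The vectors in `{-1, 0, 1} ^ n` with exactly `k` nonzero coordinates. -/
abbrev Vec (n k : ℕ) : Type := {v : Fin n → ℤ // (∀ i, v i = -1 ∨ v i = 0 ∨ v i = 1) ∧
    (Finset.univ.filter (fun i => v i ≠ 0)).card = k}

/-- The graph `J_±(n, k, t)`. -/
def J (n k : ℕ) (t : ℤ) : SimpleGraph (Vec n k) where
  Adj u v := u ≠ v ∧ ∑ i, u.1 i * v.1 i = t
  symm := ⟨by
    rintro u v ⟨h1, h2⟩
    refine ⟨h1.symm, ?_⟩
    rw [← h2]
    exact Finset.sum_congr rfl fun i _ => mul_comm _ _⟩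
  loopless := ⟨fun u h => h.1 rfl⟩

/-- The graph `K_±(n, k, t)`. -/
def K (n k : ℕ) (t : ℤ) : SimpleGraph (Vec n k) where
  Adj u v := u ≠ v ∧ ∑ i, u.1 i * v.1 i ≤ t
  symm := ⟨by
    rintro u v ⟨h1, h2⟩
    refine ⟨h1.symm, le_trans (le_of_eq ?_) h2⟩
    exact Finset.sum_congr rfl fun i _ => mul_comm _ _⟩
  loopless := ⟨fun u h => h.1 rfl⟩

/-- The sign of a Boolean. -/
def sg (a : Bool) : ℤ := if a then 1 else -1

theorem sg_cases (a : Bool) : sg a = 1 ∨ sg a = -1 := by cases a <;> simp [sg]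

/-- The vector with the signs `a` at `i` and `b` at `j`. -/
def vec {n : ℕ} (i j : Fin n) (a b : Bool) (y : Fin n) : ℤ :=
  if y = i then sg a else if y = j then sg b else 0

theorem vec_mem {n : ℕ} {i j : Fin n} (hij : i ≠ j) (a b : Bool) :
    (∀ y, vec i j a b y = -1 ∨ vec i j a b y = 0 ∨ vec i j a b y = 1) ∧
    (Finset.univ.filter (fun y => vec i j a b y ≠ 0)).card = 2 := by
  constructor
  · intro y
    unfold vec
    split_ifs
    · rcases sg_cases a with h | h <;> simp [h]
    · rcases sg_cases b with h | h <;> simp [h]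
    · simp
  · have : Finset.univ.filter (fun y => vec i j a b y ≠ 0) = {i, j} := by
      ext y
      simp only [Finset.mem_filter, Finset.mem_univ, true_and, Finset.mem_insert,
        Finset.mem_singleton]
      unfold vec
      split_ifs with h1 h2
      · rcases sg_cases a with h | h <;> simp [h, h1]
      · rcases sg_cases b with h | h <;> simp [h, h2]
      · simp [h1, h2]
    rw [this, Finset.card_pair hij]

/-- The vertex given by two signed coordinates. -/
def mk {n : ℕ} {i j : Fin n} (hij : i ≠ j) (a b : Bool) : Vec n 2 := ⟨vec i j a b, vec_mem hij a b⟩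

theorem vec_symm {n : ℕ} {i j : Fin n} (hij : i ≠ j) (a b : Bool) : vec i j a b = vec j i b a := by
  funext y
  unfold vec
  by_cases h1 : y = i
  · by_cases h2 : y = j
    · exact absurd (h1.symm.trans h2) hij
    · simp [h1, hij]
  · by_cases h2 : y = j
    · simp [h2, hij.symm]
    · simp [h1, h2]

theorem vec_inner {n : ℕ} {i j k : Fin n} (hij : i ≠ j) (hik : i ≠ k) (a b c d : Bool) :
    ∑ y, vec i j a b y * vec i k c d y = sg a * sg c + if j = k then sg b * sg d else 0 := by
  have h : ∀ y, vec i j a b y * vec i k c d y = (if y = i then sg a * sg c else 0) +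
      (if y = j then (if j = k then sg b * sg d else 0) else 0) := by
    intro y
    unfold vec
    by_cases h1 : y = i
    · have h2 : y ≠ j := fun h => hij (h1.symm.trans h)
      simp [h1, hij]
    · by_cases h2 : y = j
      · subst h2
        by_cases h3 : y = k
        · simp [h3, hik.symm]
        · simp [h1, h3]
      · simp [h1, h2]
  simp only [h, Finset.sum_add_distrib, Finset.sum_ite_eq', Finset.mem_univ, if_true]

theorem not_colorable_K (k : ℕ) (hk : 9 ≤ k) :
    ¬ (K (2 ^ k).centralBinom 2 (-1)).Colorable (2 * 2 ^ k + 1) := by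
  classical
  rintro ⟨c⟩
  let χ : Fin (2 ^ k).centralBinom → Fin (2 ^ k).centralBinom → Bool → Bool →
      Fin (2 * 2 ^ k + 1) := fun i j a b => if h : i ≠ j then c (mk h a b) else 0
  have hsym : ∀ i j a b, i ≠ j → χ i j a b = χ j i b a := by
    intro i j a b hij
    simp only [χ, dif_pos hij, dif_pos hij.symm]
    congr 1
    exact Subtype.ext (vec_symm hij a b)
  have hprop : ∀ i j k a b d, i ≠ j → i ≠ k → (j ≠ k ∨ b ≠ d) → χ i j a b ≠ χ i k (!a) d := by
    intro i j k a b d hij hik hor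
    simp only [χ, dif_pos hij, dif_pos hik]
    apply c.valid
    have h1 : sg a * sg (!a) = -1 := by cases a <;> simp [sg]
    have h2 : ∑ y, (mk hij a b).1 y * (mk hik (!a) d).1 y ≤ -1 := by
      have := vec_inner hij hik a b (!a) d
      rw [h1] at this
      refine le_trans (le_of_eq this) ?_
      by_cases hjk : j = k
      · have hbd : b ≠ d := hor.resolve_left (fun h => h hjk)
        have : sg b * sg d = -1 := by
          cases b <;> cases d <;> simp [sg] at hbd ⊢
        simp [hjk, this]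
      · simp [hjk]
    refine ⟨fun h => ?_, h2⟩
    rw [h] at h2
    have h3 : 0 ≤ ∑ y, (mk hik (!a) d).1 y * (mk hik (!a) d).1 y :=
      Finset.sum_nonneg fun y _ => mul_self_nonneg _
    omega
  obtain ⟨T, Sm, R, h1, h2, h3, h4⟩ := main_bound (ℓ := 3 * k + 9) hsym hprop (by omega)
  refine numeric k T Sm R _ hk rfl h1 h2 (h3.trans ?_) h4
  gcongr
  exact card_lt_le _ _ (by omega)

theorem cover_pair {h : ℕ} {A B : Finset (Fin (2 * h))} (hA : A.card = h) (hB : B.card = h)
    (h1 : A ≠ B) (h2 : B ≠ Aᶜ) (a b : Bool) :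
    ∃ r, (r ∈ A ↔ a = true) ∧ (r ∈ B ↔ b = true) := by
  have hAc : Aᶜ.card = h := by
    rw [Finset.card_compl, Fintype.card_fin, hA]
    omega
  cases a <;> cases b
  · have : ¬ Aᶜ ⊆ B := fun hs => h2 (Finset.eq_of_subset_of_card_le hs (by omega)).symm
    rw [Finset.not_subset] at this
    obtain ⟨r, hr, hr'⟩ := this
    exact ⟨r, by simpa using hr, by simpa using hr'⟩
  · have : ¬ B ⊆ A := fun hs => h1 (Finset.eq_of_subset_of_card_le hs (by omega)).symm
    rw [Finset.not_subset] at this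
    obtain ⟨r, hr, hr'⟩ := this
    exact ⟨r, by simpa using hr', by simpa using hr⟩
  · have : ¬ A ⊆ B := fun hs => h1 (Finset.eq_of_subset_of_card_le hs (by omega))
    rw [Finset.not_subset] at this
    obtain ⟨r, hr, hr'⟩ := this
    exact ⟨r, by simpa using hr, by simpa using hr'⟩
  · have : ¬ B ⊆ Aᶜ := fun hs => h2 (Finset.eq_of_subset_of_card_le hs (by omega))
    rw [Finset.not_subset] at this
    obtain ⟨r, hr, hr'⟩ := this
    exact ⟨r, by simpa using hr', by simpa using hr⟩

theorem exists_mk {n : ℕ} (v : Vec n 2) : ∃ (i j : Fin n) (hij : i ≠ j) (a b : Bool),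
    v = mk hij a b := by
  obtain ⟨i, j, hij, he⟩ := Finset.card_eq_two.1 v.2.2
  have hne : ∀ y, v.1 y ≠ 0 ↔ y = i ∨ y = j := by
    intro y
    have : y ∈ Finset.univ.filter (fun i => v.1 i ≠ 0) ↔ y ∈ ({i, j} : Finset (Fin n)) := by rw [he]
    simpa using this
  have hs : ∀ y, v.1 y ≠ 0 → ∃ a, v.1 y = sg a := by
    intro y hy
    rcases v.2.1 y with h | h | h
    · exact ⟨false, by simp [sg, h]⟩
    · exact absurd h hy
    · exact ⟨true, by simp [sg, h]⟩
  obtain ⟨a, ha⟩ := hs i ((hne i).2 (Or.inl rfl))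
  obtain ⟨b, hb⟩ := hs j ((hne j).2 (Or.inr rfl))
  refine ⟨i, j, hij, a, b, Subtype.ext (funext fun y => ?_)⟩
  show v.1 y = vec i j a b y
  unfold vec
  by_cases h1 : y = i
  · rw [if_pos h1, h1, ha]
  · by_cases h2 : y = j
    · rw [if_neg h1, if_pos h2, h2, hb]
    · rw [if_neg h1, if_neg h2]
      by_contra hcon
      rcases (hne y).1 hcon with h | h
      · exact h1 h
      · exact h2 h

theorem colorable_J (h : ℕ) : (J h.centralBinom 2 (-1)).Colorable (2 * h + 1) := by
  classical
  have hcard : Fintype.card {A : Finset (Fin (2 * h)) // A.card = h} = h.centralBinom := by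
    rw [Fintype.card_finset_len, Fintype.card_fin, Nat.centralBinom]
  let e : Fin h.centralBinom ≃ {A : Finset (Fin (2 * h)) // A.card = h} :=
    (Fintype.equivFinOfCardEq hcard).symm
  let good : Vec h.centralBinom 2 → Fin (2 * h) → Prop := fun v r =>
    ∀ i, v.1 i ≠ 0 → (v.1 i = 1 ↔ r ∈ (e i).1)
  have hbad : ∀ v : Vec h.centralBinom 2, (¬ ∃ r, good v r) →
      ∃ (i j : Fin h.centralBinom) (hij : i ≠ j) (a b : Bool), v = mk hij a b ∧
        (e j).1 = ((e i).1)ᶜ := by
    intro v hv
    obtain ⟨i, j, hij, a, b, rfl⟩ := exists_mk v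
    refine ⟨i, j, hij, a, b, rfl, ?_⟩
    by_contra hne
    apply hv
    have hne' : (e i).1 ≠ (e j).1 := fun h => hij (e.injective (Subtype.ext h))
    obtain ⟨r, h1, h2⟩ := cover_pair (e i).2 (e j).2 hne' hne a b
    refine ⟨r, fun y hy => ?_⟩
    have hy' : vec i j a b y ≠ 0 := hy
    show vec i j a b y = 1 ↔ _
    unfold vec at hy' ⊢
    by_cases e1 : y = i
    · subst e1
      rw [if_pos rfl, h1]
      cases a <;> simp [sg]
    · by_cases e2 : y = j
      · subst e2
        rw [if_neg e1, if_pos rfl, h2]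
        cases b <;> simp [sg]
      · rw [if_neg e1, if_neg e2] at hy'
        exact absurd rfl hy'
  refine ⟨SimpleGraph.Coloring.mk (fun v => if hv : ∃ r, good v r then hv.choose.castSucc
    else Fin.last (2 * h)) ?_⟩
  intro u v huv heq
  by_cases hu : ∃ r, good u r
  · by_cases hv : ∃ r, good v r
    · simp only [dif_pos hu, dif_pos hv] at heq
      have hr := Fin.castSucc_injective _ heq
      have g1 := hu.choose_spec
      have g2 := hv.choose_spec
      rw [← hr] at g2
      have hnn : 0 ≤ ∑ i, u.1 i * v.1 i := by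
        apply Finset.sum_nonneg
        intro i _
        by_cases z1 : u.1 i = 0
        · simp [z1]
        by_cases z2 : v.1 i = 0
        · simp [z2]
        have k1 := g1 i z1
        have k2 := g2 i z2
        rcases u.2.1 i with w1 | w1 | w1 <;> rcases v.2.1 i with w2 | w2 | w2
        · rw [w1, w2]; norm_num
        · exact absurd w2 z2
        · exact absurd (k1.2 (k2.1 w2)) (by rw [w1]; norm_num)
        · exact absurd w1 z1
        · exact absurd w1 z1
        · exact absurd w1 z1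
        · exact absurd (k2.2 (k1.1 w1)) (by rw [w2]; norm_num)
        · exact absurd w2 z2
        · rw [w1, w2]; norm_num
      have := huv.2
      omega
    · simp only [dif_pos hu, dif_neg hv] at heq
      exact absurd heq (Fin.castSucc_lt_last _).ne
  · by_cases hv : ∃ r, good v r
    · simp only [dif_neg hu, dif_pos hv] at heq
      exact absurd heq (Fin.castSucc_lt_last _).ne'
    · obtain ⟨i, j, hij, a, b, rfl, e1⟩ := hbad u hu
      obtain ⟨k, l, hkl, c, d, rfl, e2⟩ := hbad v hv
      have hadj := huv.2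
      have hprod : ∑ y, vec i j a b y * vec k l c d y = -1 := hadj
      have e1' : (e i).1 = ((e j).1)ᶜ := by rw [e1, compl_compl]
      have e2' : (e k).1 = ((e l).1)ᶜ := by rw [e2, compl_compl]
      have hinj : ∀ x y, (e x).1 = (e y).1 → x = y := fun x y h => e.injective (Subtype.ext h)
      have hodd : ∀ a b c d : Bool, sg a * sg c + sg b * sg d ≠ -1 := by
        intro a b c d
        cases a <;> cases b <;> cases c <;> cases d <;> simp [sg]
      by_cases hik : i = k
      · subst hik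
        have hjl : j = l := hinj _ _ (by rw [e1, e2])
        subst hjl
        rw [vec_inner hij hij, if_pos rfl] at hprod
        exact hodd _ _ _ _ hprod
      · by_cases hil : i = l
        · subst hil
          have hjk : j = k := hinj _ _ (by rw [e1, e2'])
          subst hjk
          rw [vec_symm hkl c d, vec_inner hij hij, if_pos rfl] at hprod
          exact hodd _ _ _ _ hprod
        · have hjk : j ≠ k := by
            rintro rfl
            exact hil (hinj _ _ (by rw [e1', e2]))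
          have hjl : j ≠ l := by
            rintro rfl
            exact hik (hinj _ _ (by rw [e1', e2']))
          have h0 : ∑ y, vec i j a b y * vec k l c d y = 0 := by
            apply Finset.sum_eq_zero
            intro y _
            unfold vec
            by_cases z1 : y = i
            · have w1 : y ≠ k := fun h => hik (z1.symm.trans h)
              have w2 : y ≠ l := fun h => hil (z1.symm.trans h)
              rw [if_neg w1, if_neg w2, mul_zero]
            · by_cases z2 : y = j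
              · have w1 : y ≠ k := fun h => hjk (z2.symm.trans h)
                have w2 : y ≠ l := fun h => hjl (z2.symm.trans h)
                rw [if_neg w1, if_neg w2, mul_zero]
              · rw [if_neg z1, if_neg z2, zero_mul]
          omega

end Graphs

/-- For `k = 2`, `t = -1` the chromatic number of `J_±(n, k, t)` is smaller than that of
`K_±(n, k, t)` for arbitrarily large `n`. -/
theorem result : ∀ n₀ : ℕ, ∃ n : ℕ, n₀ ≤ n ∧
    (J n 2 (-1)).chromaticNumber < (K n 2 (-1)).chromaticNumber := by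
  intro n₀
  let k := n₀ + 9
  refine ⟨(2 ^ k).centralBinom, ?_, ?_⟩
  · have h1 : k < 2 ^ k := Nat.lt_two_pow_self
    have h2 : 2 ^ k ≤ (2 ^ k).centralBinom := by
      have h3 : 4 ^ (2 ^ k) < 2 ^ k * (2 ^ k).centralBinom :=
        Nat.four_pow_lt_mul_centralBinom _ (by omega)
      have h4 : 2 ^ k * 2 ^ k ≤ 4 ^ (2 ^ k) := by
        have h5 : 2 ^ k < 2 ^ (2 ^ k) := Nat.lt_two_pow_self
        calc 2 ^ k * 2 ^ k ≤ 2 ^ (2 ^ k) * 2 ^ (2 ^ k) := Nat.mul_le_mul h5.le h5.le
          _ = 4 ^ (2 ^ k) := by rw [← mul_pow]; norm_num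
      have h6 : 2 ^ k * 2 ^ k < 2 ^ k * (2 ^ k).centralBinom := lt_of_le_of_lt h4 h3
      exact (Nat.lt_of_mul_lt_mul_left h6).le
    omega
  · refine lt_of_le_of_lt (colorable_J (2 ^ k)).chromaticNumber_le ?_
    by_contra hcon
    push Not at hcon
    exact not_colorable_K k (by omega) (SimpleGraph.chromaticNumber_le_iff_colorable.1 hcon)

end Pool.Agent.Results.MP_6c9e22_co.CentralBinomial
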